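import Mathlib

/-!
Noncommutative algebra behind the separation of weak and strong homomorphisms:
magic square relations plus a tetrahedral block are contradictory.
-/

namespace Pool.Agent.H15.CSP

section general

variable {R : Type*} [Ring R]

/-- four orthogonal elements with sum `1` -/
theorem ctx4 {e0 e1 e2 e3 : R} (hs : e0 + e1 + e2 + e3 = 1)
    (h01 : e0 * e1 = 0) (h02 : e0 * e2 = 0) (h03 : e0 * e3 = 0)
    (h10 : e1 * e0 = 0) (h12 : e1 * e2 = 0) (h13 : e1 * e3 = 0)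
    (h20 : e2 * e0 = 0) (h21 : e2 * e1 = 0) (h23 : e2 * e3 = 0)
    (h30 : e3 * e0 = 0) (h31 : e3 * e1 = 0) (h32 : e3 * e2 = 0) :
    (e0 * e0 = e0 ∧ e1 * e1 = e1 ∧ e2 * e2 = e2 ∧ e3 * e3 = e3) ∧
    ((e0 + e1 - e2 - e3) * (e0 + e1 - e2 - e3) = 1) ∧
    ((e0 - e1 + e2 - e3) * (e0 - e1 + e2 - e3) = 1) ∧
    ((e0 + e1 - e2 - e3) * (e0 - e1 + e2 - e3) = e0 - e1 - e2 + e3) ∧
    ((e0 - e1 + e2 - e3) * (e0 + e1 - e2 - e3) = e0 - e1 - e2 + e3) := by
  have q0 : e0 * e0 = e0 := by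
    calc e0 * e0 = e0 * (e0 + e1 + e2 + e3) := by simp [mul_add, h01, h02, h03]
      _ = e0 := by rw [hs, mul_one]
  have q1 : e1 * e1 = e1 := by
    calc e1 * e1 = e1 * (e0 + e1 + e2 + e3) := by simp [mul_add, h10, h12, h13]
      _ = e1 := by rw [hs, mul_one]
  have q2 : e2 * e2 = e2 := by
    calc e2 * e2 = e2 * (e0 + e1 + e2 + e3) := by simp [mul_add, h20, h21, h23]
      _ = e2 := by rw [hs, mul_one]
  have q3 : e3 * e3 = e3 := by
    calc e3 * e3 = e3 * (e0 + e1 + e2 + e3) := by simp [mul_add, h30, h31, h32]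
      _ = e3 := by rw [hs, mul_one]
  refine ⟨⟨q0, q1, q2, q3⟩, ?_, ?_, ?_, ?_⟩
  · rw [← hs]
    simp only [mul_add, mul_sub, add_mul, sub_mul, q0, q1, q2, q3, h01, h02, h03, h10, h12, h13,
      h20, h21, h23, h30, h31, h32]
    abel
  · rw [← hs]
    simp only [mul_add, mul_sub, add_mul, sub_mul, q0, q1, q2, q3, h01, h02, h03, h10, h12, h13,
      h20, h21, h23, h30, h31, h32]
    abel
  · simp only [mul_add, mul_sub, add_mul, sub_mul, q0, q1, q2, q3, h01, h02, h03, h10, h12, h13,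
      h20, h21, h23, h30, h31, h32]
    abel
  · simp only [mul_add, mul_sub, add_mul, sub_mul, q0, q1, q2, q3, h01, h02, h03, h10, h12, h13,
      h20, h21, h23, h30, h31, h32]
    abel

theorem glue {a b c d : R} (h1 : a + b = 1) (h2 : c + d = 1) (had : a * d = 0) (hbc : b * c = 0) :
    a - b = c - d := by
  have hac : a = c := by
    calc a = a * (c + d) := by rw [h2, mul_one]
      _ = a * c := by rw [mul_add, had, add_zero]
      _ = (a + b) * c := by rw [add_mul, hbc, add_zero]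
      _ = c := by rw [h1, one_mul]
  have hbd : b = d := by
    have : a + b = a + d := by rw [h1, hac, h2]
    exact add_left_cancel this
  rw [hac, hbd]

end general

/-- the 29 vectors -/
def vec : Fin 29 → Fin 4 → ℤ := ![
  ![1, 1, 1, 1], ![1, -1, 1, -1], ![1, 1, -1, -1], ![1, -1, -1, 1],
  ![1, 0, 0, 0], ![0, 1, 0, 0], ![0, 0, 1, 0], ![0, 0, 0, 1],
  ![1, 1, 1, -1], ![1, 1, -1, 1], ![1, -1, 1, 1], ![-1, 1, 1, 1],
  ![1, 0, 1, 0], ![1, 0, -1, 0], ![0, 1, 0, 1], ![0, 1, 0, -1],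
  ![1, 1, 0, 0], ![1, -1, 0, 0], ![0, 0, 1, 1], ![0, 0, 1, -1],
  ![1, 0, 0, 1], ![1, 0, 0, -1], ![0, 1, 1, 0], ![0, 1, -1, 0],
  ![1, 1, 1, 0], ![1, -1, -1, 0], ![1, -1, 1, 0], ![1, 1, -1, 0], ![0, 0, 0, 1]]

/-- the block of a vector -/
def ctx : Fin 29 → Fin 7 := ![0, 0, 0, 0, 1, 1, 1, 1, 2, 2, 2, 2, 3, 3, 3, 3, 4, 4, 4, 4,
  5, 5, 5, 5, 6, 6, 6, 6, 6]

/-- inner product of two of the vectors -/
def dot (i j : Fin 29) : ℤ := ∑ k, vec i k * vec j k

theorem dot_comm (i j : Fin 29) : dot i j = dot j i := by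
  unfold dot
  exact Finset.sum_congr rfl fun k _ => mul_comm _ _

/-- the graph: different blocks, non-orthogonal vectors -/
def Yg : SimpleGraph (Fin 29) where
  Adj i j := ctx i ≠ ctx j ∧ dot i j ≠ 0
  symm := ⟨fun i j h => ⟨h.1.symm, by rw [dot_comm]; exact h.2⟩⟩
  loopless := ⟨fun i h => h.1 rfl⟩

instance : DecidableRel Yg.Adj := fun i j =>
  inferInstanceAs (Decidable (ctx i ≠ ctx j ∧ dot i j ≠ 0))


/-- the elements attached to the rows of the magic square -/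
structure Pauli {R : Type*} [Ring R] (X1 X2 Z1 Z2 : R) : Prop where
  x1 : X1 * X1 = 1
  x2 : X2 * X2 = 1
  z1 : Z1 * Z1 = 1
  z2 : Z2 * Z2 = 1
  x12 : X2 * X1 = X1 * X2
  z12 : Z2 * Z1 = Z1 * Z2
  x1z2 : Z2 * X1 = X1 * Z2
  x2z1 : Z1 * X2 = X2 * Z1
  x1z1 : Z1 * X1 = -(X1 * Z1)
  x2z2 : Z2 * X2 = -(X2 * Z2)

section pauli

variable {R : Type*} [Ring R]

theorem pauli_of_E (E : Fin 29 → R)
    (h : ∀ i j, i ≠ j → ¬ Yg.Adj i j → E i * E j = 0)
    (s0 : E 0 + E 1 + E 2 + E 3 = 1) (s1 : E 4 + E 5 + E 6 + E 7 = 1)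
    (s2 : E 8 + E 9 + E 10 + E 11 = 1) (s3 : E 12 + E 13 + E 14 + E 15 = 1)
    (s4 : E 16 + E 17 + E 18 + E 19 = 1) (s5 : E 20 + E 21 + E 22 + E 23 = 1) :
    ∃ X1 X2 Z1 Z2 : R, Pauli X1 X2 Z1 Z2 ∧
      Z2 = E 4 - E 5 + E 6 - E 7 ∧ Z1 = E 4 + E 5 - E 6 - E 7 ∧
      X1 * Z2 = E 12 - E 13 - E 14 + E 15 ∧ X1 = E 12 - E 13 + E 14 - E 15 ∧
      Z2 = E 12 + E 13 - E 14 - E 15 ∧
      X2 * Z1 = E 16 - E 17 - E 18 + E 19 ∧ X2 = E 16 - E 17 + E 18 - E 19 ∧
      Z1 = E 16 + E 17 - E 18 - E 19 := by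
  have H : ∀ i j, (i ≠ j ∧ ¬ Yg.Adj i j) → E i * E j = 0 := fun i j hh => h i j hh.1 hh.2
  obtain ⟨-, r01, r02, r03, r04⟩ := ctx4 s0 (H 0 1 (by decide)) (H 0 2 (by decide))
    (H 0 3 (by decide)) (H 1 0 (by decide)) (H 1 2 (by decide)) (H 1 3 (by decide))
    (H 2 0 (by decide)) (H 2 1 (by decide)) (H 2 3 (by decide)) (H 3 0 (by decide))
    (H 3 1 (by decide)) (H 3 2 (by decide))
  obtain ⟨-, r11, r12, r13, r14⟩ := ctx4 s1 (H 4 5 (by decide)) (H 4 6 (by decide))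
    (H 4 7 (by decide)) (H 5 4 (by decide)) (H 5 6 (by decide)) (H 5 7 (by decide))
    (H 6 4 (by decide)) (H 6 5 (by decide)) (H 6 7 (by decide)) (H 7 4 (by decide))
    (H 7 5 (by decide)) (H 7 6 (by decide))
  obtain ⟨-, r21, r22, r23, r24⟩ := ctx4 s2 (H 8 9 (by decide)) (H 8 10 (by decide))
    (H 8 11 (by decide)) (H 9 8 (by decide)) (H 9 10 (by decide)) (H 9 11 (by decide))
    (H 10 8 (by decide)) (H 10 9 (by decide)) (H 10 11 (by decide)) (H 11 8 (by decide))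
    (H 11 9 (by decide)) (H 11 10 (by decide))
  obtain ⟨-, r31, r32, r33, r34⟩ := ctx4 s3 (H 12 13 (by decide)) (H 12 14 (by decide))
    (H 12 15 (by decide)) (H 13 12 (by decide)) (H 13 14 (by decide)) (H 13 15 (by decide))
    (H 14 12 (by decide)) (H 14 13 (by decide)) (H 14 15 (by decide)) (H 15 12 (by decide))
    (H 15 13 (by decide)) (H 15 14 (by decide))
  obtain ⟨-, r41, r42, r43, r44⟩ := ctx4 s4 (H 16 17 (by decide)) (H 16 18 (by decide))
    (H 16 19 (by decide)) (H 17 16 (by decide)) (H 17 18 (by decide)) (H 17 19 (by decide))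
    (H 18 16 (by decide)) (H 18 17 (by decide)) (H 18 19 (by decide)) (H 19 16 (by decide))
    (H 19 17 (by decide)) (H 19 18 (by decide))
  obtain ⟨-, r51, r52, r53, r54⟩ := ctx4 s5 (H 20 21 (by decide)) (H 20 22 (by decide))
    (H 20 23 (by decide)) (H 21 20 (by decide)) (H 21 22 (by decide)) (H 21 23 (by decide))
    (H 22 20 (by decide)) (H 22 21 (by decide)) (H 22 23 (by decide)) (H 23 20 (by decide))
    (H 23 21 (by decide)) (H 23 22 (by decide))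
  -- the nine gluings
  have G : ∀ i1 i2 i3 i4 j1 j2 j3 j4 : Fin 29, E i1 + E i2 + (E i3 + E i4) = 1 →
      E j1 + E j2 + (E j3 + E j4) = 1 →
      ((i1 ≠ j3 ∧ ¬ Yg.Adj i1 j3) ∧ (i1 ≠ j4 ∧ ¬ Yg.Adj i1 j4) ∧
       (i2 ≠ j3 ∧ ¬ Yg.Adj i2 j3) ∧ (i2 ≠ j4 ∧ ¬ Yg.Adj i2 j4) ∧
       (i3 ≠ j1 ∧ ¬ Yg.Adj i3 j1) ∧ (i3 ≠ j2 ∧ ¬ Yg.Adj i3 j2) ∧
       (i4 ≠ j1 ∧ ¬ Yg.Adj i4 j1) ∧ (i4 ≠ j2 ∧ ¬ Yg.Adj i4 j2)) →
      E i1 + E i2 - (E i3 + E i4) = E j1 + E j2 - (E j3 + E j4) := by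
    intro i1 i2 i3 i4 j1 j2 j3 j4 hi hj hh
    obtain ⟨c1, c2, c3, c4, c5, c6, c7, c8⟩ := hh
    refine glue hi hj ?_ ?_
    · simp [mul_add, add_mul, H _ _ c1, H _ _ c2, H _ _ c3, H _ _ c4]
    · simp [mul_add, add_mul, H _ _ c5, H _ _ c6, H _ _ c7, H _ _ c8]
  have g11 := G 0 1 2 3 12 14 13 15 (by rw [← s0]; abel) (by rw [← s3]; abel) (by decide)
  have g12 := G 0 2 1 3 16 18 17 19 (by rw [← s0]; abel) (by rw [← s4]; abel) (by decide)
  have g13 := G 0 3 1 2 20 22 21 23 (by rw [← s0]; abel) (by rw [← s5]; abel) (by decide)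
  have g21 := G 4 6 5 7 12 13 14 15 (by rw [← s1]; abel) (by rw [← s3]; abel) (by decide)
  have g22 := G 4 5 6 7 16 17 18 19 (by rw [← s1]; abel) (by rw [← s4]; abel) (by decide)
  have g23 := G 4 7 5 6 20 21 22 23 (by rw [← s1]; abel) (by rw [← s5]; abel) (by decide)
  have g31 := G 8 10 9 11 12 15 13 14 (by rw [← s2]; abel) (by rw [← s3]; abel) (by decide)
  have g32 := G 8 9 10 11 16 19 17 18 (by rw [← s2]; abel) (by rw [← s4]; abel) (by decide)
  have g33 := G 8 11 9 10 21 22 20 23 (by rw [← s2]; abel) (by rw [← s5]; abel) (by decide)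
  have hX1 : E 0 + E 1 - E 2 - E 3 = E 12 - E 13 + E 14 - E 15 := by
    have := g11
    calc _ = E 0 + E 1 - (E 2 + E 3) := by abel
      _ = _ := by rw [this]; abel
  have hX2 : E 0 - E 1 + E 2 - E 3 = E 16 - E 17 + E 18 - E 19 := by
    calc _ = E 0 + E 2 - (E 1 + E 3) := by abel
      _ = _ := by rw [g12]; abel
  have hXX : E 0 - E 1 - E 2 + E 3 = E 20 - E 21 + E 22 - E 23 := by
    calc _ = E 0 + E 3 - (E 1 + E 2) := by abel
      _ = _ := by rw [g13]; abel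
  have hZ2 : E 4 - E 5 + E 6 - E 7 = E 12 + E 13 - E 14 - E 15 := by
    calc _ = E 4 + E 6 - (E 5 + E 7) := by abel
      _ = _ := by rw [g21]; abel
  have hZ1 : E 4 + E 5 - E 6 - E 7 = E 16 + E 17 - E 18 - E 19 := by
    calc _ = E 4 + E 5 - (E 6 + E 7) := by abel
      _ = _ := by rw [g22]; abel
  have hZZ : E 4 - E 5 - E 6 + E 7 = E 20 + E 21 - E 22 - E 23 := by
    calc _ = E 4 + E 7 - (E 5 + E 6) := by abel
      _ = _ := by rw [g23]; abel
  have hXZ : E 8 - E 9 + E 10 - E 11 = E 12 - E 13 - E 14 + E 15 := by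
    calc _ = E 8 + E 10 - (E 9 + E 11) := by abel
      _ = _ := by rw [g31]; abel
  have hZX : E 8 + E 9 - E 10 - E 11 = E 16 - E 17 - E 18 + E 19 := by
    calc _ = E 8 + E 9 - (E 10 + E 11) := by abel
      _ = _ := by rw [g32]; abel
  have hYY : E 8 - E 9 - E 10 + E 11 = -(E 20 - E 21 - E 22 + E 23) := by
    calc _ = E 8 + E 11 - (E 9 + E 10) := by abel
      _ = _ := by rw [g33]; abel
  obtain ⟨X1, eX1⟩ : ∃ X, X = E 0 + E 1 - E 2 - E 3 := ⟨_, rfl⟩
  obtain ⟨X2, eX2⟩ : ∃ X, X = E 0 - E 1 + E 2 - E 3 := ⟨_, rfl⟩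
  obtain ⟨Z1, eZ1⟩ : ∃ X, X = E 4 + E 5 - E 6 - E 7 := ⟨_, rfl⟩
  obtain ⟨Z2, eZ2⟩ : ∃ X, X = E 4 - E 5 + E 6 - E 7 := ⟨_, rfl⟩
  rw [← eX1, ← eX2] at r03 r04
  rw [← eX1] at r01 hX1
  rw [← eX2] at r02 hX2
  rw [← eZ1, ← eZ2] at r13 r14
  rw [← eZ1] at r11 hZ1
  rw [← eZ2] at r12 hZ2
  rw [← hZ2, ← hX1, ← hXZ] at r33 r34
  rw [← hZ1, ← hX2, ← hZX] at r43 r44
  rw [← hZZ, ← hXX, ← r13, ← r03, ← neg_eq_iff_eq_neg.mpr hYY] at r53
  rw [← hZZ, ← hXX, ← r13, ← r03, ← neg_eq_iff_eq_neg.mpr hYY] at r54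
  rw [← r33, ← r43] at r23
  rw [← r33, ← r43] at r24
  rw [← r23] at r53
  rw [← r24] at r54
  have x12 : X2 * X1 = X1 * X2 := by rw [r04, r03]
  have z12 : Z2 * Z1 = Z1 * Z2 := by rw [r14, r13]
  have x1z2 : Z2 * X1 = X1 * Z2 := by rw [r33, r34]
  have x2z1 : Z1 * X2 = X2 * Z1 := by rw [r43, r44]
  have x2z2 : Z2 * X2 = -(X2 * Z2) := by
    have e1 : Z2 * (X1 * X2) = -(X2 * (Z2 * X1)) := by
      calc Z2 * (X1 * X2) = (Z1 * Z1) * (Z2 * (X1 * X2)) := by rw [r11, one_mul]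
        _ = Z1 * (Z1 * Z2 * (X1 * X2)) := by noncomm_ring
        _ = -((Z1 * Z1) * (X2 * (Z2 * X1))) := by rw [r53]; noncomm_ring
        _ = _ := by rw [r11, one_mul]
    calc Z2 * X2 = Z2 * (X1 * X2) * X1 := by
          rw [← x12, mul_assoc, mul_assoc, r01, mul_one]
      _ = -(X2 * (Z2 * X1) * X1) := by rw [e1]; noncomm_ring
      _ = _ := by rw [mul_assoc X2, mul_assoc Z2, r01, mul_one]
  have x1z1 : Z1 * X1 = -(X1 * Z1) := by
    have e1 : Z1 * X2 * (Z2 * X1) = Z2 * X1 * (Z1 * X2) := by rw [r23, r24]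
    have e2 : Z2 * (Z1 * (X1 * X2)) = -(Z2 * (X1 * (Z1 * X2))) := by
      calc Z2 * (Z1 * (X1 * X2)) = (Z2 * Z1) * (X1 * X2) := by noncomm_ring
        _ = Z1 * Z2 * (X2 * X1) := by rw [z12, x12]
        _ = Z1 * (Z2 * X2) * X1 := by noncomm_ring
        _ = -(Z1 * X2 * (Z2 * X1)) := by rw [x2z2]; noncomm_ring
        _ = -(Z2 * X1 * (Z1 * X2)) := by rw [e1]
        _ = _ := by noncomm_ring
    have e3 : Z1 * (X1 * X2) = -(X1 * (Z1 * X2)) := by
      calc Z1 * (X1 * X2) = (Z2 * Z2) * (Z1 * (X1 * X2)) := by rw [r12, one_mul]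
        _ = Z2 * (Z2 * (Z1 * (X1 * X2))) := by noncomm_ring
        _ = -((Z2 * Z2) * (X1 * (Z1 * X2))) := by rw [e2]; noncomm_ring
        _ = _ := by rw [r12, one_mul]
    calc Z1 * X1 = Z1 * (X1 * X2) * X2 := by
          rw [mul_assoc, mul_assoc, r02, mul_one]
      _ = -(X1 * (Z1 * X2) * X2) := by rw [e3]; noncomm_ring
      _ = _ := by rw [mul_assoc X1, mul_assoc Z1, r02, mul_one]
  refine ⟨X1, X2, Z1, Z2, ⟨r01, r02, r11, r12, x12, z12, x1z2, x2z1, x1z1, x2z2⟩, eZ2, eZ1, ?_, hX1,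
    hZ2, ?_, hX2, hZ1⟩
  · rw [r34, hXZ]
  · rw [r44, hZX]

variable [Algebra ℝ R]

theorem two_cancel {a b : R} (h : a + a = b + b) : a = b := by
  have h1 : (2 : ℝ) • a = (2 : ℝ) • b := by rw [two_smul, two_smul, h]
  have := congrArg (fun x => (2 : ℝ)⁻¹ • x) h1
  simpa [smul_smul] using this

/-- The relations satisfied by the operator attached to the vector `(1, s, t, 0)`. -/
structure Good (X1 X2 P1 P2 P3 P4 : R) (s t : ℤ) (q : R) : Prop where
  l2 : P1 * q = s • (X2 * P2 * q)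
  l3 : P1 * q = t • (X1 * P3 * q)
  l4 : P4 * q = 0
  r2 : q * P2 = s • (q * P1 * X2)
  r3 : q * P3 = t • (q * P1 * X1)

omit [Algebra ℝ R] in
theorem Good.mul {X1 X2 P1 P2 P3 P4 : R} {s t s' t' : ℤ} {p q : R}
    (hp : Good X1 X2 P1 P2 P3 P4 s t p) (hq : Good X1 X2 P1 P2 P3 P4 s' t' q)
    (hs : P1 + P2 + P3 + P4 = 1) (h11 : P1 * P1 = P1) (h22 : P2 * P2 = P2) (h33 : P3 * P3 = P3)
    (hs' : s' * s' = 1) (ht' : t' * t' = 1) :
    p * q = (1 + s * s' + t * t') • (p * P1 * q) := by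
  have a2 : p * P2 * q = (s * s') • (p * P1 * q) := by
    have e1 : X2 * P2 * q = s' • (P1 * q) := by
      rw [hq.l2, smul_smul, hs', one_smul]
    calc p * P2 * q = p * (P2 * P2) * q := by rw [h22]
      _ = p * P2 * (P2 * q) := by noncomm_ring
      _ = s • (p * P1 * (X2 * P2 * q)) := by
          rw [hp.r2, smul_mul_assoc]; congr 1; noncomm_ring
      _ = s • (s' • (p * (P1 * P1) * q)) := by
          rw [e1, mul_smul_comm]; congr 2; noncomm_ring
      _ = _ := by rw [h11, smul_smul]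
  have a3 : p * P3 * q = (t * t') • (p * P1 * q) := by
    have e1 : X1 * P3 * q = t' • (P1 * q) := by
      rw [hq.l3, smul_smul, ht', one_smul]
    calc p * P3 * q = p * (P3 * P3) * q := by rw [h33]
      _ = p * P3 * (P3 * q) := by noncomm_ring
      _ = t • (p * P1 * (X1 * P3 * q)) := by
          rw [hp.r3, smul_mul_assoc]; congr 1; noncomm_ring
      _ = t • (t' • (p * (P1 * P1) * q)) := by
          rw [e1, mul_smul_comm]; congr 2; noncomm_ring
      _ = _ := by rw [h11, smul_smul]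
  have a4 : p * P4 * q = 0 := by rw [mul_assoc, hq.l4, mul_zero]
  calc p * q = p * (P1 + P2 + P3 + P4) * q := by rw [hs, mul_one]
    _ = p * P1 * q + p * P2 * q + p * P3 * q + p * P4 * q := by noncomm_ring
    _ = _ := by rw [a2, a3, a4, add_smul, add_smul, one_smul, add_zero]

theorem good_of {X P1 P2 A q : R} {s : ℤ} (m2 : X * P2 = P1 * X)
    (h11 : P1 * P1 = P1) (h22 : P2 * P2 = P2) (h12 : P1 * P2 = 0) (h21 : P2 * P1 = 0)
    (hA : (1 - s • X) * ((P1 + P2) + (P1 + P2)) = A + A + A + A)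
    (hl : A * q = 0) (hr : q * A = 0) :
    P1 * q = s • (X * P2 * q) ∧ q * P2 = s • (q * P1 * X) := by
  constructor
  · have e1 : (1 - s • X) * ((P1 + P2) * q) = 0 := by
      apply two_cancel
      calc _ = ((1 - s • X) * ((P1 + P2) + (P1 + P2))) * q := by noncomm_ring
        _ = 0 := by rw [hA]; simp [add_mul, hl]
        _ = _ := by simp
    have e2 : P1 * ((1 - s • X) * ((P1 + P2) * q)) = P1 * q - s • (X * P2 * q) := by
      calc P1 * ((1 - s • X) * ((P1 + P2) * q)) =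
          (P1 * P1 + P1 * P2) * q - s • ((P1 * X) * (P1 + P2) * q) := by
            rw [sub_mul, one_mul, mul_sub, smul_mul_assoc, mul_smul_comm]
            congr 1
            · noncomm_ring
            · congr 1; noncomm_ring
        _ = P1 * q - s • (X * (P2 * P1 + P2 * P2) * q) := by
            rw [h11, h12, add_zero, ← m2]; congr 2; noncomm_ring
        _ = _ := by rw [h21, h22, zero_add]
    rw [e1, mul_zero] at e2
    exact (sub_eq_zero.mp e2.symm)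
  · have e1 : q * ((1 - s • X) * (P1 + P2)) = 0 := by
      apply two_cancel
      calc _ = q * ((1 - s • X) * ((P1 + P2) + (P1 + P2))) := by noncomm_ring
        _ = 0 := by rw [hA]; simp [mul_add, hr]
        _ = _ := by simp
    have e2 : q * ((1 - s • X) * (P1 + P2)) * P2 = q * P2 - s • (q * P1 * X) := by
      calc q * ((1 - s • X) * (P1 + P2)) * P2 =
          q * (P1 * P2 + P2 * P2) - s • (q * (X * (P1 * P2 + P2 * P2))) := by
            rw [sub_mul, one_mul, mul_sub, sub_mul, smul_mul_assoc, mul_smul_comm, smul_mul_assoc]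
            congr 1
            · noncomm_ring
            · congr 1; noncomm_ring
        _ = _ := by rw [h12, h22, zero_add, m2, mul_assoc]
    rw [e1, zero_mul] at e2
    exact (sub_eq_zero.mp e2.symm)

theorem core [Nontrivial R] (E : Fin 29 → R)
    (h : ∀ i j, i ≠ j → ¬ Yg.Adj i j → E i * E j = 0)
    (s0 : E 0 + E 1 + E 2 + E 3 = 1) (s1 : E 4 + E 5 + E 6 + E 7 = 1)
    (s2 : E 8 + E 9 + E 10 + E 11 = 1) (s3 : E 12 + E 13 + E 14 + E 15 = 1)
    (s4 : E 16 + E 17 + E 18 + E 19 = 1) (s5 : E 20 + E 21 + E 22 + E 23 = 1)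
    (s6 : E 24 + E 25 + E 26 + E 27 + E 28 = 1) : False := by
  obtain ⟨X1, X2, Z1, Z2, hP, eZ2, eZ1, c3, c1, c2, d3, d1, d2⟩ := pauli_of_E E h s0 s1 s2 s3 s4 s5
  have H : ∀ i j, (i ≠ j ∧ ¬ Yg.Adj i j) → E i * E j = 0 := fun i j hh => h i j hh.1 hh.2
  obtain ⟨⟨p11, p22, p33, p44⟩, -⟩ := ctx4 s1 (H 4 5 (by decide)) (H 4 6 (by decide))
    (H 4 7 (by decide)) (H 5 4 (by decide)) (H 5 6 (by decide)) (H 5 7 (by decide))
    (H 6 4 (by decide)) (H 6 5 (by decide)) (H 6 7 (by decide)) (H 7 4 (by decide))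
    (H 7 5 (by decide)) (H 7 6 (by decide))
  have q45 := H 4 5 (by decide)
  have q46 := H 4 6 (by decide)
  have q47 := H 4 7 (by decide)
  have q54 := H 5 4 (by decide)
  have q56 := H 5 6 (by decide)
  have q57 := H 5 7 (by decide)
  have q64 := H 6 4 (by decide)
  have q65 := H 6 5 (by decide)
  have q67 := H 6 7 (by decide)
  -- Z1 and Z2 in terms of the projections
  have hz1 : 1 + Z1 = (E 4 + E 5) + (E 4 + E 5) := by rw [← s1, eZ1]; abel
  have hz2 : 1 + Z2 = (E 4 + E 6) + (E 4 + E 6) := by rw [← s1, eZ2]; abel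
  have hz1' : 1 - Z1 = (E 6 + E 7) + (E 6 + E 7) := by rw [← s1, eZ1]; abel
  have hz2' : 1 - Z2 = (E 5 + E 7) + (E 5 + E 7) := by rw [← s1, eZ2]; abel
  have x2a : X2 * (E 4 + E 5) = (E 4 + E 5) * X2 := by
    apply two_cancel
    calc _ = X2 * ((E 4 + E 5) + (E 4 + E 5)) := by noncomm_ring
      _ = X2 + X2 * Z1 := by rw [← hz1]; noncomm_ring
      _ = X2 + Z1 * X2 := by rw [hP.x2z1]
      _ = (1 + Z1) * X2 := by noncomm_ring
      _ = _ := by rw [hz1]; noncomm_ring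
  have x2b : X2 * (E 4 + E 6) = (E 5 + E 7) * X2 := by
    apply two_cancel
    calc _ = X2 * ((E 4 + E 6) + (E 4 + E 6)) := by noncomm_ring
      _ = X2 + X2 * Z2 := by rw [← hz2]; noncomm_ring
      _ = X2 - Z2 * X2 := by rw [hP.x2z2]; noncomm_ring
      _ = (1 - Z2) * X2 := by noncomm_ring
      _ = _ := by rw [hz2']; noncomm_ring
  have x1a : X1 * (E 4 + E 6) = (E 4 + E 6) * X1 := by
    apply two_cancel
    calc _ = X1 * ((E 4 + E 6) + (E 4 + E 6)) := by noncomm_ring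
      _ = X1 + X1 * Z2 := by rw [← hz2]; noncomm_ring
      _ = X1 + Z2 * X1 := by rw [hP.x1z2]
      _ = (1 + Z2) * X1 := by noncomm_ring
      _ = _ := by rw [hz2]; noncomm_ring
  have x1b : X1 * (E 4 + E 5) = (E 6 + E 7) * X1 := by
    apply two_cancel
    calc _ = X1 * ((E 4 + E 5) + (E 4 + E 5)) := by noncomm_ring
      _ = X1 + X1 * Z1 := by rw [← hz1]; noncomm_ring
      _ = X1 - Z1 * X1 := by rw [hP.x1z1]; noncomm_ring
      _ = (1 - Z1) * X1 := by noncomm_ring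
      _ = _ := by rw [hz1']; noncomm_ring
  -- X2 E4 = E5 X2 etc.
  have m1 : X2 * E 4 = E 5 * X2 := by
    calc X2 * E 4 = X2 * ((E 4 + E 5) * (E 4 + E 6)) := by
          congr 1; simp [mul_add, add_mul, p11, q46, q54, q56]
      _ = (E 4 + E 5) * (X2 * (E 4 + E 6)) := by rw [← mul_assoc, x2a, mul_assoc]
      _ = ((E 4 + E 5) * (E 5 + E 7)) * X2 := by rw [x2b, ← mul_assoc]
      _ = _ := by congr 1; simp [mul_add, add_mul, p22, q45, q47, q57]
  have m2 : X2 * E 5 = E 4 * X2 := by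
    calc X2 * E 5 = X2 * E 5 * (X2 * X2) := by rw [hP.x2, mul_one]
      _ = X2 * (E 5 * X2) * X2 := by noncomm_ring
      _ = (X2 * X2) * E 4 * X2 := by rw [← m1]; noncomm_ring
      _ = _ := by rw [hP.x2, one_mul]
  have m3 : X1 * E 4 = E 6 * X1 := by
    calc X1 * E 4 = X1 * ((E 4 + E 6) * (E 4 + E 5)) := by
          congr 1; simp [mul_add, add_mul, p11, q45, q64, q65]
      _ = (E 4 + E 6) * (X1 * (E 4 + E 5)) := by rw [← mul_assoc, x1a, mul_assoc]
      _ = ((E 4 + E 6) * (E 6 + E 7)) * X1 := by rw [x1b, ← mul_assoc]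
      _ = _ := by congr 1; simp [mul_add, add_mul, p33, q46, q47, q67]
  have m4 : X1 * E 6 = E 4 * X1 := by
    calc X1 * E 6 = X1 * E 6 * (X1 * X1) := by rw [hP.x1, mul_one]
      _ = X1 * (E 6 * X1) * X1 := by noncomm_ring
      _ = (X1 * X1) * E 4 * X1 := by rw [← m3]; noncomm_ring
      _ = _ := by rw [hP.x1, one_mul]
  have a16 : (1 - (-1 : ℤ) • X2) * ((E 4 + E 5) + (E 4 + E 5)) = E 16 + E 16 + E 16 + E 16 := by
    rw [← hz1]
    calc _ = 1 + X2 + Z1 + X2 * Z1 := by noncomm_ring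
      _ = _ := by rw [d3, ← s4, d2, d1]; abel
  have a17 : (1 - (1 : ℤ) • X2) * ((E 4 + E 5) + (E 4 + E 5)) = E 17 + E 17 + E 17 + E 17 := by
    rw [← hz1]
    calc _ = 1 - X2 + Z1 - X2 * Z1 := by noncomm_ring
      _ = _ := by rw [d3, ← s4, d2, d1]; abel
  have a12 : (1 - (-1 : ℤ) • X1) * ((E 4 + E 6) + (E 4 + E 6)) = E 12 + E 12 + E 12 + E 12 := by
    rw [← hz2]
    calc _ = 1 + X1 + Z2 + X1 * Z2 := by noncomm_ring
      _ = _ := by rw [c3, ← s3, c2, c1]; abel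
  have a13 : (1 - (1 : ℤ) • X1) * ((E 4 + E 6) + (E 4 + E 6)) = E 13 + E 13 + E 13 + E 13 := by
    rw [← hz2]
    calc _ = 1 - X1 + Z2 - X1 * Z2 := by noncomm_ring
      _ = _ := by rw [c3, ← s3, c2, c1]; abel
  have G1 : Good X1 X2 (E 4) (E 5) (E 6) (E 7) 1 1 (E 24) := by
    obtain ⟨u, v⟩ := good_of m2 p11 p22 q45 q54 a17 (H 17 24 (by decide)) (H 24 17 (by decide))
    obtain ⟨u', v'⟩ := good_of m4 p11 p33 q46 q64 a13 (H 13 24 (by decide)) (H 24 13 (by decide))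
    exact ⟨u, u', H 7 24 (by decide), v, v'⟩
  have G2 : Good X1 X2 (E 4) (E 5) (E 6) (E 7) (-1) (-1) (E 25) := by
    obtain ⟨u, v⟩ := good_of m2 p11 p22 q45 q54 a16 (H 16 25 (by decide)) (H 25 16 (by decide))
    obtain ⟨u', v'⟩ := good_of m4 p11 p33 q46 q64 a12 (H 12 25 (by decide)) (H 25 12 (by decide))
    exact ⟨u, u', H 7 25 (by decide), v, v'⟩
  have G3 : Good X1 X2 (E 4) (E 5) (E 6) (E 7) (-1) 1 (E 26) := by
    obtain ⟨u, v⟩ := good_of m2 p11 p22 q45 q54 a16 (H 16 26 (by decide)) (H 26 16 (by decide))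
    obtain ⟨u', v'⟩ := good_of m4 p11 p33 q46 q64 a13 (H 13 26 (by decide)) (H 26 13 (by decide))
    exact ⟨u, u', H 7 26 (by decide), v, v'⟩
  have G4 : Good X1 X2 (E 4) (E 5) (E 6) (E 7) 1 (-1) (E 27) := by
    obtain ⟨u, v⟩ := good_of m2 p11 p22 q45 q54 a17 (H 17 27 (by decide)) (H 27 17 (by decide))
    obtain ⟨u', v'⟩ := good_of m4 p11 p33 q46 q64 a12 (H 12 27 (by decide)) (H 27 12 (by decide))
    exact ⟨u, u', H 7 27 (by decide), v, v'⟩
  -- products through E 4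
  have off : ∀ {s t s' t' : ℤ} {p q : R}, Good X1 X2 (E 4) (E 5) (E 6) (E 7) s t p →
      Good X1 X2 (E 4) (E 5) (E 6) (E 7) s' t' q → s' * s' = 1 → t' * t' = 1 →
      (1 + s * s' + t * t') * (1 + s * s' + t * t') = 1 → p * q = 0 → p * E 4 * q = 0 := by
    intro s t s' t' p q hp hq h1 h2 h3 h4
    have h5 := hp.mul hq s1 p11 p22 p33 h1 h2
    rw [h4] at h5
    have h6 := congrArg (fun x => (1 + s * s' + t * t') • x) h5
    simp only [smul_zero, smul_smul, h3, one_smul] at h6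
    exact h6.symm
  have o12 := off G1 G2 rfl rfl rfl (H 24 25 (by decide))
  have o13 := off G1 G3 rfl rfl rfl (H 24 26 (by decide))
  have o14 := off G1 G4 rfl rfl rfl (H 24 27 (by decide))
  have o21 := off G2 G1 rfl rfl rfl (H 25 24 (by decide))
  have o23 := off G2 G3 rfl rfl rfl (H 25 26 (by decide))
  have o24 := off G2 G4 rfl rfl rfl (H 25 27 (by decide))
  have o31 := off G3 G1 rfl rfl rfl (H 26 24 (by decide))
  have o32 := off G3 G2 rfl rfl rfl (H 26 25 (by decide))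
  have o34 := off G3 G4 rfl rfl rfl (H 26 27 (by decide))
  have o41 := off G4 G1 rfl rfl rfl (H 27 24 (by decide))
  have o42 := off G4 G2 rfl rfl rfl (H 27 25 (by decide))
  have o43 := off G4 G3 rfl rfl rfl (H 27 26 (by decide))
  have o5 : E 4 * E 28 = 0 := H 4 28 (by decide)
  -- each of the four elements vanishes
  have van : ∀ {s t : ℤ} {p : R}, Good X1 X2 (E 4) (E 5) (E 6) (E 7) s t p →
      s * s = 1 → t * t = 1 → p * p = p → p * E 4 = p * E 4 * p → p = 0 := by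
    intro s t p hp h1 h2 h3 h4
    have h5 := hp.mul hp s1 p11 p22 p33 h1 h2
    rw [h3, h1, h2, ← h4] at h5
    have h5' : p = (3 : ℤ) • (p * E 4) := by simpa using h5
    have h6 : p * E 4 = (3 : ℤ) • (p * E 4) := by
      calc p * E 4 = ((3 : ℤ) • (p * E 4)) * E 4 := by rw [← h5']
        _ = (3 : ℤ) • (p * (E 4 * E 4)) := by rw [smul_mul_assoc, mul_assoc]
        _ = _ := by rw [p11]
    have h7 : p * E 4 = 0 := by
      have h8 : p * E 4 + p * E 4 = 0 + 0 := by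
        have : (3 : ℤ) • (p * E 4) = p * E 4 + p * E 4 + p * E 4 := by
          rw [show (3 : ℤ) = 1 + 1 + 1 from rfl, add_smul, add_smul, one_smul]
        rw [this] at h6
        have h9 : p * E 4 + (p * E 4 + p * E 4) = p * E 4 + 0 := by
          rw [add_zero, ← add_assoc]; exact h6.symm
        simpa using add_left_cancel h9
      exact two_cancel h8
    rw [h5', h7, smul_zero]
  have idem : ∀ a b c d e : R, a + b + c + d + e = 1 → a * b = 0 → a * c = 0 → a * d = 0 →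
      a * e = 0 → a * a = a := by
    intro a b c d e h1 h2 h3 h4 h5
    calc a * a = a * (a + b + c + d + e) := by simp [mul_add, h2, h3, h4, h5]
      _ = a := by rw [h1, mul_one]
  have prod : ∀ a b c d e u : R, a + b + c + d + e = 1 → u * b = 0 → u * c = 0 → u * d = 0 →
      u * e = 0 → u = u * a := by
    intro a b c d e u h1 h2 h3 h4 h5
    calc u = u * (a + b + c + d + e) := by rw [h1, mul_one]
      _ = u * a := by simp [mul_add, h2, h3, h4, h5]
  have o5' : ∀ q : R, q * E 4 * E 28 = 0 := fun q => by rw [mul_assoc, o5, mul_zero]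
  have t1 : E 24 + E 25 + E 26 + E 27 + E 28 = 1 := s6
  have t2 : E 25 + E 24 + E 26 + E 27 + E 28 = 1 := by rw [← s6]; abel
  have t3 : E 26 + E 24 + E 25 + E 27 + E 28 = 1 := by rw [← s6]; abel
  have t4 : E 27 + E 24 + E 25 + E 26 + E 28 = 1 := by rw [← s6]; abel
  have v1 : E 24 = 0 := van G1 rfl rfl
    (idem _ _ _ _ _ t1 (H 24 25 (by decide)) (H 24 26 (by decide)) (H 24 27 (by decide))
      (H 24 28 (by decide))) (prod _ _ _ _ _ _ t1 o12 o13 o14 (o5' _))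
  have v2 : E 25 = 0 := van G2 rfl rfl
    (idem _ _ _ _ _ t2 (H 25 24 (by decide)) (H 25 26 (by decide)) (H 25 27 (by decide))
      (H 25 28 (by decide))) (prod _ _ _ _ _ _ t2 o21 o23 o24 (o5' _))
  have v3 : E 26 = 0 := van G3 rfl rfl
    (idem _ _ _ _ _ t3 (H 26 24 (by decide)) (H 26 25 (by decide)) (H 26 27 (by decide))
      (H 26 28 (by decide))) (prod _ _ _ _ _ _ t3 o31 o32 o34 (o5' _))
  have v4 : E 27 = 0 := van G4 rfl rfl
    (idem _ _ _ _ _ t4 (H 27 24 (by decide)) (H 27 25 (by decide)) (H 27 26 (by decide))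
      (H 27 28 (by decide))) (prod _ _ _ _ _ _ t4 o41 o42 o43 (o5' _))
  have v5 : E 28 = 1 := by rw [← s6, v1, v2, v3, v4]; simp
  have w1 : E 4 = 0 := by rw [v5, mul_one] at o5; exact o5
  have w2 : E 5 = 0 := by
    have : E 5 * X2 * X2 = 0 := by rw [← m1, w1]; simp
    rwa [mul_assoc, hP.x2, mul_one] at this
  have w3 : E 6 = 0 := by
    have : E 6 * X1 * X1 = 0 := by rw [← m3, w1]; simp
    rwa [mul_assoc, hP.x1, mul_one] at this
  have w4 : E 7 = 0 := by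
    have e1 : E 7 * E 28 = 0 := by
      rw [v5, mul_one]
      -- `X2` moves `E 6` to `E 7`
      have e2 : X2 * (E 6 + E 7) = (E 6 + E 7) * X2 := by
        have e3 : X2 * (E 4 + E 5 + (E 6 + E 7)) = (E 4 + E 5 + (E 6 + E 7)) * X2 := by
          rw [← add_assoc, s1, mul_one, one_mul]
        rw [mul_add, add_mul, x2a] at e3
        exact add_left_cancel e3
      rw [w3, zero_add] at e2
      have e4 : (E 5 + E 7) * X2 = 0 := by rw [← x2b, w1, w3]; simp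
      rw [w2, zero_add] at e4
      calc E 7 = E 7 * X2 * X2 := by rw [mul_assoc, hP.x2, mul_one]
        _ = 0 := by rw [e4, zero_mul]
    rwa [v5, mul_one] at e1
  have : (1 : R) = 0 := by rw [← s1, w1, w2, w3, w4]; simp
  exact one_ne_zero this

end pauli

end Pool.Agent.H15.CSP
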