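import Mathlib

/-!
Weak and strong homomorphisms of graphs with respect to the completely positive semidefinite cone.
-/

namespace Pool.Agent.H15.CSP

/-- `H` lies in the completely positive semidefinite cone: it is a matrix of inner products
`tr (ρ i * ρ j)` of real symmetric positive semidefinite matrices of one common size `d ≥ 1`. -/
def IsCSPlus {ι : Type} (H : Matrix ι ι ℝ) : Prop :=
  ∃ (d : ℕ) (ρ : ι → Matrix (Fin d) (Fin d) ℝ), 1 ≤ d ∧ (∀ i, (ρ i).PosSemidef) ∧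
    ∀ i j, H i j = (ρ i * ρ j).trace

/-- Condition (C1). -/
def C1 {V W : Type} [Fintype W] (H : Matrix (V × W) (V × W) ℝ) : Prop :=
  ∀ x x' : V, ∑ y : W, ∑ y' : W, H (x, y) (x', y') = 1

/-- Condition (C2). -/
def C2 {V W : Type} (X : SimpleGraph V) (Y : SimpleGraph W)
    (H : Matrix (V × W) (V × W) ℝ) : Prop :=
  ∀ (x x' : V) (y y' : W), X.Adj x x' → ¬ Y.Adj y y' → H (x, y) (x', y') = 0

/-- Condition (C3). -/
def C3 {V W : Type} (H : Matrix (V × W) (V × W) ℝ) : Prop :=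
  ∀ (x : V) (y y' : W), y ≠ y' → H (x, y) (x, y') = 0

/-- `X` has a weak `CS₊`-homomorphism to `Y`. -/
def WeakHom {V W : Type} [Fintype W] (X : SimpleGraph V) (Y : SimpleGraph W) : Prop :=
  ∃ H : Matrix (V × W) (V × W) ℝ, IsCSPlus H ∧ C1 H ∧ C2 X Y H

/-- `X` has a strong `CS₊`-homomorphism to `Y`. -/
def StrongHom {V W : Type} [Fintype W] (X : SimpleGraph V) (Y : SimpleGraph W) : Prop :=
  ∃ H : Matrix (V × W) (V × W) ℝ, IsCSPlus H ∧ C1 H ∧ C2 X Y H ∧ C3 H

end Pool.Agent.H15.CSP
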