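import Pool.Agent.H15.CSP.Core
import Pool.Agent.H15.CSP.Defs

/-!
No complete graph on at least seven vertices has a strong homomorphism to `Yg`.
-/

namespace Pool.Agent.H15.CSP

open Matrix

theorem psd_factor {d : ℕ} {A : Matrix (Fin d) (Fin d) ℝ} (hA : A.PosSemidef) :
    ∃ B : Matrix (Fin d) (Fin d) ℝ, A = Bᴴ * B := by
  open scoped MatrixOrder in
  obtain ⟨B, hB⟩ := CStarAlgebra.nonneg_iff_eq_star_mul_self.mp hA.nonneg
  exact ⟨B, hB⟩

theorem mul_eq_zero_of_trace {d : ℕ} {A B : Matrix (Fin d) (Fin d) ℝ} (hA : A.PosSemidef)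
    (hB : B.PosSemidef) (h : (A * B).trace = 0) : A * B = 0 := by
  obtain ⟨C, rfl⟩ := psd_factor hA
  obtain ⟨D, rfl⟩ := psd_factor hB
  have h1 : ((C * Dᴴ)ᴴ * (C * Dᴴ)).trace = 0 := by
    rw [conjTranspose_mul, conjTranspose_conjTranspose]
    rw [← h]
    calc (D * Cᴴ * (C * Dᴴ)).trace = (D * (Cᴴ * C * Dᴴ)).trace := by
          simp only [Matrix.mul_assoc]
      _ = (Cᴴ * C * Dᴴ * D).trace := by rw [trace_mul_comm]
      _ = _ := by simp only [Matrix.mul_assoc]
  have h2 := trace_conjTranspose_mul_self_eq_zero_iff.mp h1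
  calc Cᴴ * C * (Dᴴ * D) = Cᴴ * (C * Dᴴ) * D := by simp only [Matrix.mul_assoc]
    _ = 0 := by rw [h2]; simp

/-- Sum over blocks of an orthogonal family which sums to `7` forces each block to sum to `1`. -/
theorem blocks {V : Type*} [AddCommGroup V] [Module ℝ V] [FiniteDimensional ℝ V]
    (E : Fin 29 → Module.End ℝ V) (hi : ∀ i, E i * E i = E i)
    (h : ∀ i j, i ≠ j → ctx i = ctx j → E i * E j = 0) (hs : ∑ i, E i = 7) (c : Fin 7) :
    ∑ i ∈ Finset.univ.filter (fun i => ctx i = c), E i = 1 := by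
  classical
  let F : Fin 7 → Module.End ℝ V := fun c => ∑ i ∈ Finset.univ.filter (fun i => ctx i = c), E i
  have hF : ∀ c, F c * F c = F c := by
    intro c
    simp only [F]
    rw [Finset.sum_mul_sum]
    refine Finset.sum_congr rfl fun i hi' => ?_
    rw [Finset.sum_eq_single_of_mem i hi']
    · exact hi i
    · intro j hj hne
      rw [Finset.mem_filter] at hj hi'
      exact h i j hne.symm (hi'.2.trans hj.2.symm)
  have hG : ∀ c, IsIdempotentElem (1 - F c) := fun c => (IsIdempotentElem.one_sub (hF c))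
  have hsum : ∑ c, (1 - F c) = 0 := by
    rw [Finset.sum_sub_distrib]
    have : ∑ c, F c = ∑ i, E i := by
      simp only [F]
      rw [← Finset.sum_fiberwise Finset.univ ctx E]
    rw [this, hs]
    simp
  have htr : ∑ c, LinearMap.trace ℝ V (1 - F c) = 0 := by
    rw [← map_sum, hsum, map_zero]
  have hnn : ∀ c, 0 ≤ LinearMap.trace ℝ V (1 - F c) := by
    intro c
    rw [(LinearMap.IsIdempotentElem.isProj_range _ (hG c)).trace]
    exact Nat.cast_nonneg _
  have h0 := (Finset.sum_eq_zero_iff_of_nonneg (fun c _ => hnn c)).mp htr c (Finset.mem_univ c)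
  have h1 : 1 - F c = 0 := LinearMap.IsIdempotentElem.eq_zero_of_trace_eq_zero (hG c) h0
  exact (sub_eq_zero.mp h1).symm

theorem no_ops {V : Type*} [AddCommGroup V] [Module ℝ V] [FiniteDimensional ℝ V] [Nontrivial V]
    (f : Fin 7 → Fin 29 → Module.End ℝ V) (h1 : ∀ x, ∑ y, f x y = 1)
    (h2 : ∀ x y y', y ≠ y' → f x y * f x y' = 0)
    (h3 : ∀ x x' y y', x ≠ x' → ¬ Yg.Adj y y' → f x y * f x' y' = 0) : False := by
  classical
  have hid : ∀ x y, f x y * f x y = f x y := by
    intro x y
    calc f x y * f x y = f x y * ∑ y', f x y' := by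
          rw [Finset.mul_sum, Finset.sum_eq_single_of_mem y (Finset.mem_univ y)]
          intro y' _ hne
          exact h2 x y y' hne.symm
      _ = f x y := by rw [h1, mul_one]
  let E : Fin 29 → Module.End ℝ V := fun y => ∑ x, f x y
  have hE : ∀ i j, i ≠ j → ¬ Yg.Adj i j → E i * E j = 0 := by
    intro i j hij hadj
    simp only [E]
    rw [Finset.sum_mul_sum]
    refine Finset.sum_eq_zero fun x _ => Finset.sum_eq_zero fun x' _ => ?_
    by_cases hx : x = x'
    · subst hx; exact h2 x i j hij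
    · exact h3 x x' i j hx hadj
  have hEi : ∀ i, E i * E i = E i := by
    intro i
    simp only [E]
    rw [Finset.sum_mul_sum]
    refine Finset.sum_congr rfl fun x _ => ?_
    rw [Finset.sum_eq_single_of_mem x (Finset.mem_univ x)]
    · exact hid x i
    · intro x' _ hne
      exact h3 x x' i i hne.symm (by simp)
  have hEs : ∑ i, E i = 7 := by
    simp only [E]
    rw [Finset.sum_comm]
    simp only [h1]
    simp
  have hb := blocks E hEi (fun i j hij hc => hE i j hij (fun hadj => hadj.1 hc)) hEs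
  have b0 := hb 0
  have b1 := hb 1
  have b2 := hb 2
  have b3 := hb 3
  have b4 := hb 4
  have b5 := hb 5
  have b6 := hb 6
  rw [show (Finset.univ.filter (fun i => ctx i = 0)) = {0, 1, 2, 3} by decide] at b0
  rw [show (Finset.univ.filter (fun i => ctx i = 1)) = {4, 5, 6, 7} by decide] at b1
  rw [show (Finset.univ.filter (fun i => ctx i = 2)) = {8, 9, 10, 11} by decide] at b2
  rw [show (Finset.univ.filter (fun i => ctx i = 3)) = {12, 13, 14, 15} by decide] at b3
  rw [show (Finset.univ.filter (fun i => ctx i = 4)) = {16, 17, 18, 19} by decide] at b4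
  rw [show (Finset.univ.filter (fun i => ctx i = 5)) = {20, 21, 22, 23} by decide] at b5
  rw [show (Finset.univ.filter (fun i => ctx i = 6)) = {24, 25, 26, 27, 28} by decide] at b6
  rw [Finset.sum_insert (by decide), Finset.sum_insert (by decide), Finset.sum_insert (by decide),
    Finset.sum_singleton] at b0 b1 b2 b3 b4 b5
  rw [Finset.sum_insert (by decide), Finset.sum_insert (by decide), Finset.sum_insert (by decide),
    Finset.sum_insert (by decide), Finset.sum_singleton] at b6
  refine core E hE ?_ ?_ ?_ ?_ ?_ ?_ ?_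
  · rw [← b0]; abel
  · rw [← b1]; abel
  · rw [← b2]; abel
  · rw [← b3]; abel
  · rw [← b4]; abel
  · rw [← b5]; abel
  · rw [← b6]; abel

theorem no_strong (n : ℕ) (hn : 7 ≤ n) : ¬ StrongHom (⊤ : SimpleGraph (Fin n)) Yg := by
  rintro ⟨H, ⟨d, ρ, hd, hpsd, hH⟩, hC1, hC2, hC3⟩
  let r : Fin 7 → Fin 29 → Matrix (Fin d) (Fin d) ℝ := fun x y => ρ (Fin.castLE hn x, y)
  have rpsd : ∀ x y, (r x y).PosSemidef := fun x y => hpsd _
  have rorth : ∀ x y y', y ≠ y' → r x y * r x y' = 0 := by
    intro x y y' hne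
    apply mul_eq_zero_of_trace (rpsd x y) (rpsd x y')
    have := hC3 (Fin.castLE hn x) y y' hne
    rwa [hH] at this
  have rcross : ∀ x x' y y', x ≠ x' → ¬ Yg.Adj y y' → r x y * r x' y' = 0 := by
    intro x x' y y' hne hadj
    apply mul_eq_zero_of_trace (rpsd x y) (rpsd x' y')
    have := hC2 (Fin.castLE hn x) (Fin.castLE hn x') y y' (by
      rw [SimpleGraph.top_adj]
      intro hh
      exact hne (Fin.castLE_injective hn hh)) hadj
    rwa [hH] at this
  let S : Fin 7 → Matrix (Fin d) (Fin d) ℝ := fun x => ∑ y, r x y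
  have Str : ∀ x x', (S x * S x').trace = 1 := by
    intro x x'
    have := hC1 (Fin.castLE hn x) (Fin.castLE hn x')
    rw [← this]
    simp only [S]
    rw [Finset.sum_mul_sum, Matrix.trace_sum]
    refine Finset.sum_congr rfl fun y _ => ?_
    rw [Matrix.trace_sum]
    refine Finset.sum_congr rfl fun y' _ => ?_
    rw [hH]
  have Sherm : ∀ x, (S x)ᴴ = S x := by
    intro x
    simp only [S]
    rw [conjTranspose_sum]
    exact Finset.sum_congr rfl fun y _ => (rpsd x y).isHermitian
  have Seq : ∀ x x', S x = S x' := by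
    intro x x'
    have h1 : ((S x - S x')ᴴ * (S x - S x')).trace = 0 := by
      rw [conjTranspose_sub, Sherm, Sherm, Matrix.sub_mul, Matrix.mul_sub, Matrix.mul_sub]
      simp only [trace_sub, Str]
      norm_num
    exact sub_eq_zero.mp (trace_conjTranspose_mul_self_eq_zero_iff.mp h1)
  have rS : ∀ x y, S 0 * r x y = r x y * S 0 := by
    intro x y
    rw [Seq 0 x]
    simp only [S]
    rw [Finset.sum_mul, Finset.mul_sum]
    rw [Finset.sum_eq_single_of_mem y (Finset.mem_univ y),
      Finset.sum_eq_single_of_mem y (Finset.mem_univ y)]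
    · intro y' _ hne; exact rorth x y y' hne.symm
    · intro y' _ hne; exact rorth x y' y hne
  have S0 : S 0 ≠ 0 := by
    intro h0
    have := Str 0 0
    rw [h0] at this
    simp at this
  have hSh : (S 0).IsHermitian := Sherm 0
  have hex : ∃ i, hSh.eigenvalues i ≠ 0 := by
    by_contra hcon
    push Not at hcon
    exact S0 (hSh.eigenvalues_eq_zero_iff.mp (funext hcon))
  obtain ⟨i, hi⟩ := hex
  set lam := hSh.eigenvalues i with hlam
  let v : Fin d → ℝ := ⇑(hSh.eigenvectorBasis i)
  have hv : (S 0) *ᵥ v = lam • v := hSh.mulVec_eigenvectorBasis i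
  have hv0 : v ≠ 0 := by
    intro h0
    have h1 : hSh.eigenvectorBasis i = 0 := by
      ext k
      exact congrFun h0 k
    have h2 := (hSh.eigenvectorBasis).orthonormal.1 i
    rw [h1] at h2
    simp at h2
  let T : Module.End ℝ (Fin d → ℝ) := Matrix.toLin' (S 0)
  let U : Submodule ℝ (Fin d → ℝ) := Module.End.eigenspace T lam
  have hvU : v ∈ U := by
    rw [Module.End.mem_eigenspace_iff]
    simp only [T, Matrix.toLin'_apply]
    exact hv
  have : Nontrivial U := ⟨⟨⟨v, hvU⟩, 0, by
    intro hh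
    exact hv0 (congrArg Subtype.val hh)⟩⟩
  have hmap : ∀ x y, ∀ u ∈ U, (Matrix.toLin' (r x y)) u ∈ U := by
    intro x y u hu
    rw [Module.End.mem_eigenspace_iff] at hu ⊢
    simp only [T, Matrix.toLin'_apply, Matrix.mulVec_mulVec] at hu ⊢
    rw [rS, ← Matrix.mulVec_mulVec, hu, Matrix.mulVec_smul]
  let f : Fin 7 → Fin 29 → Module.End ℝ U := fun x y =>
    lam⁻¹ • (Matrix.toLin' (r x y)).restrict (hmap x y)
  have fapp : ∀ x y (u : U), ((f x y u : U) : Fin d → ℝ) = lam⁻¹ • ((r x y) *ᵥ (u : Fin d → ℝ)) := by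
    intro x y u
    simp [f]
  refine no_ops f ?_ ?_ ?_
  · intro x
    ext u : 2
    rw [LinearMap.sum_apply]
    rw [AddSubmonoidClass.coe_finsetSum]
    simp only [fapp]
    rw [← Finset.smul_sum, ← Matrix.sum_mulVec]
    have h1 : ∑ y, r x y = S 0 := Seq x 0
    rw [h1]
    have hu := u.2
    rw [Module.End.mem_eigenspace_iff] at hu
    simp only [T, Matrix.toLin'_apply] at hu
    rw [hu, smul_smul, inv_mul_cancel₀ hi, one_smul]
    rfl
  · intro x y y' hne
    ext u : 2
    rw [Module.End.mul_apply, fapp, fapp, Matrix.mulVec_smul, Matrix.mulVec_mulVec,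
      rorth x y y' hne]
    simp
  · intro x x' y y' hne hadj
    ext u : 2
    rw [Module.End.mul_apply, fapp, fapp, Matrix.mulVec_smul, Matrix.mulVec_mulVec,
      rcross x x' y y' hne hadj]
    simp

end Pool.Agent.H15.CSP
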