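import Pool.Agent.H15.CSP.Core
import Pool.Agent.H15.CSP.Defs

/-!
There is a weak homomorphism from the complete graph on seven vertices to `Yg`.
-/

namespace Pool.Agent.H15.CSP

open Matrix

/-- eight times the weight of a vector -/
def wt : Fin 29 → ℤ := ![1, 1, 1, 1, 4, 4, 4, 4, 1, 1, 1, 1, 2, 2, 2, 2, 2, 2, 2, 2, 2, 2, 2, 2,
  1, 1, 1, 1, 4]

theorem wt_sum : ∀ (x : Fin 7) (i j : Fin 4),
    ∑ y : Fin 29, (if ctx y = x then wt y * (vec y i * vec y j) else 0) =
      if i = j then 4 else 0 := by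
  decide +kernel

theorem wt_nonneg : ∀ y : Fin 29, 0 ≤ wt y := by decide

/-- the vector as a real vector -/
def rv (y : Fin 29) : Fin 4 → ℝ := fun i => (vec y i : ℝ)

theorem rv_dot (y y' : Fin 29) : rv y ⬝ᵥ rv y' = (dot y y' : ℝ) := by
  simp [rv, dotProduct, dot]

/-- the operators of the weak homomorphism -/
noncomputable def rho (p : Fin 7 × Fin 29) : Matrix (Fin 4) (Fin 4) ℝ :=
  if ctx p.2 = p.1 then ((wt p.2 : ℝ) / 8) • vecMulVec (rv p.2) (rv p.2) else 0

theorem rho_psd (p : Fin 7 × Fin 29) : (rho p).PosSemidef := by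
  unfold rho
  split_ifs
  · have h := posSemidef_vecMulVec_self_star (rv p.2)
    rw [show star (rv p.2) = rv p.2 from by ext; simp] at h
    refine h.smul ?_
    have := wt_nonneg p.2
    positivity
  · exact PosSemidef.zero

theorem rho_sum (x : Fin 7) : ∑ y, rho (x, y) = (1 / 2 : ℝ) • (1 : Matrix (Fin 4) (Fin 4) ℝ) := by
  ext i j
  rw [Matrix.sum_apply, Matrix.smul_apply, Matrix.one_apply]
  have h := congrArg (fun z : ℤ => (z : ℝ)) (wt_sum x i j)
  push_cast at h
  have h2 : ∀ y, rho (x, y) i j =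
      (if ctx y = x then (wt y : ℝ) * ((vec y i : ℝ) * (vec y j : ℝ)) else 0) / 8 := by
    intro y
    unfold rho
    split_ifs with hc
    · simp [vecMulVec_apply, rv]
      ring
    · simp
  simp only [h2]
  rw [← Finset.sum_div, h]
  split_ifs <;> norm_num

theorem weak : WeakHom (⊤ : SimpleGraph (Fin 7)) Yg := by
  refine ⟨fun p q => (rho p * rho q).trace, ⟨4, rho, by norm_num, rho_psd, fun _ _ => rfl⟩, ?_, ?_⟩
  · intro x x'
    have : ∑ y : Fin 29, ∑ y' : Fin 29, (rho (x, y) * rho (x', y')).trace =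
        ((∑ y, rho (x, y)) * (∑ y', rho (x', y'))).trace := by
      rw [Finset.sum_mul_sum, Matrix.trace_sum]
      refine Finset.sum_congr rfl fun y _ => ?_
      rw [Matrix.trace_sum]
    rw [this, rho_sum, rho_sum]
    simp [Matrix.trace_smul]
    norm_num
  · intro x x' y y' hx hy
    rw [SimpleGraph.top_adj] at hx
    show (rho (x, y) * rho (x', y')).trace = 0
    unfold rho
    by_cases h1 : ctx y = x
    · by_cases h2 : ctx y' = x'
      · have hd : dot y y' = 0 := by
          by_contra hne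
          exact hy ⟨by rw [h1, h2]; exact hx, hne⟩
        rw [if_pos h1, if_pos h2]
        rw [Matrix.smul_mul, Matrix.mul_smul, vecMulVec_mul_vecMulVec, rv_dot, hd]
        simp
      · rw [if_neg h2]; simp
    · rw [if_neg h1]; simp

end Pool.Agent.H15.CSP
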